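import Pool.Agent.Lib.MP_846a4c_an.R.Dig
import Pool.Agent.Lib.MP_846a4c_an.R.Dbl
import Pool.Agent.Lib.MP_846a4c_an.R.NoM

set_option autoImplicit false

namespace Pool.Agent.Results.MP_846a4c_an.NoCancellation

/-- `E` and `F` have finite partitions into Borel sets `P j` and `Q j` such that `P j` is carried
onto `Q j` by one of the maps `φ γ`. -/
def BorelEquidec {X Γ : Type} [TopologicalSpace X] (φ : Γ → X → X) (E F : Set X) : Prop :=
  ∃ (m : ℕ) (P Q : Fin m → Set X) (γ : Fin m → Γ),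
    (∀ j, @MeasurableSet X (borel X) (P j)) ∧ (∀ j, @MeasurableSet X (borel X) (Q j)) ∧
    (∀ i j, i ≠ j → Disjoint (P i) (P j)) ∧ (∀ i j, i ≠ j → Disjoint (Q i) (Q j)) ∧
    (⋃ j, P j) = E ∧ (⋃ j, Q j) = F ∧ ∀ j, φ (γ j) '' P j = Q j

/-- The cancellation law for Borel equidecomposability fails, already for `n = 2`, in the
additive group of the real numbers acting on itself by translations. -/
theorem result :
    ∃ A B : Set ℝ, @MeasurableSet ℝ (borel ℝ) A ∧ @MeasurableSet ℝ (borel ℝ) B ∧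
      BorelEquidec (fun (γ : ℝ × Equiv.Perm (Fin 2)) (p : ℝ × Fin 2) => (γ.1 + p.1, γ.2 p.2))
        (A ×ˢ Set.univ) (B ×ˢ Set.univ) ∧
      ¬ BorelEquidec (fun g x : ℝ => g + x) A B := by
  obtain ⟨s⟩ := Pool.Agent.Lib.MP_846a4c_an.R.exists_sys
  refine ⟨s.X 0, s.X 1, s.meas_X 0, s.meas_X 1, ?_, ?_⟩
  · obtain ⟨m, P, γ, h1, h2, h3, h4, h5⟩ := s.double
    exact ⟨m, P, _, γ, fun j => BorelSpace.measurable_eq (α := ℝ × Fin 2) ▸ h1 j,
      fun j => BorelSpace.measurable_eq (α := ℝ × Fin 2) ▸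
        ((Homeomorph.addLeft (γ j).1).prodCongr
          (Homeomorph.ofDiscrete (γ j).2)).measurableEmbedding.measurableSet_image.2 (h1 j),
      h2, h3, h4, h5, fun _ => rfl⟩
  · rintro ⟨m, P, Q, g, h1, -, h2, h3, h4, h5, h6⟩
    obtain rfl : Q = fun j => (fun x => g j + x) '' P j := funext fun j => (h6 j).symm
    exact Pool.Agent.Lib.MP_846a4c_an.R.not_equidec s P g h1 h2 h3 h4 h5

end Pool.Agent.Results.MP_846a4c_an.NoCancellation
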